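import Pool.Agent.Q208.UI.LRGa
import Pool.Agent.Results.MP_2d259b_nt.FewExceptionalCurves

/-!
# Project UI of helper256: job LRG
-/

set_option autoImplicit false

namespace Pool.Agent.Q208.UI

open Pool.Agent.Q256.UI

theorem lrg : S_IRR → S_LRG :=
  lrg_of Pool.Agent.Results.MP_2d259b_nt.FewExceptionalCurves.result

end Pool.Agent.Q208.UI
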