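import Pool.Agent.Q256.UI.Stm

/-!
# Project UI of helper256: job LRG, from the statement of the starting result
-/

set_option autoImplicit false

namespace Pool.Agent.Q208.UI

open Finset MvPolynomial Pool.Agent.Q256.UI
open Pool.Agent.Q256.UP (PBox PS mem_PS card_PS)

/-- the statement of the starting result -/
def Res : Prop := ∀ (d : ℕ), 4 ≤ d → ∀ H : ℕ,
    Set.ncard {F : MvPolynomial (Fin 2) ℤ | F.totalDegree ≤ d ∧ ∀ m, |F.coeff m| ≤ (H : ℤ)}
      = (2 * H + 1) ^ ((d + 1) * (d + 2) / 2) ∧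
    Set.ncard {F : MvPolynomial (Fin 2) ℤ | (F.totalDegree = d ∧ ∀ m, |F.coeff m| ≤ (H : ℤ)) ∧
      Irreducible (MvPolynomial.map (Int.castRingHom ℚ) F) ∧
      Squarefree (MvPolynomial.map (Int.castRingHom ℚ) (MvPolynomial.homogeneousComponent d F)) ∧
      ∃ x y : ℤ, MvPolynomial.eval ![x, y] F = 0 ∧
        ((d + 1) * ∑ m ∈ F.support, (F.coeff m).natAbs) ^ (10 ^ 11 * 36 ^ d * (d + 1) ^ 13)
          < max x.natAbs y.natAbs}
      ≤ 10 ^ 9 * 36 ^ d * (d + 1) ^ 8 * (2 * H + 1) ^ (4 * d - 2)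

theorem nn_le {d : ℕ} (hd : 7 ≤ d) : 4 * d ≤ NN d := by
  unfold NN
  rw [Nat.choose_two_right, Nat.add_sub_cancel, Nat.le_div_iff_mul_le two_pos]
  nlinarith

theorem lrg_of (hres : Res) : S_IRR → S_LRG := by
  intro hirr d Φ hd hΦ
  set h : ℕ := 1 + ∑ m ∈ Φ.support, (Φ.coeff m).natAbs with hh
  have hh1 : 1 ≤ h := by omega
  refine ⟨(d + 1) * (h + NN d), 10 ^ 11 * 36 ^ d * (d + 1) ^ 13,
    ((10 ^ 9 * 36 ^ d * (d + 1) ^ 8 * (5 * h) ^ (4 * d - 2) : ℕ) : ℝ), ?_, ?_⟩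
  · have : 0 < 10 ^ 9 * 36 ^ d * (d + 1) ^ 8 * (5 * h) ^ (4 * d - 2) := by positivity
    exact_mod_cast this
  intro K H hK hH
  have hb : ∀ m, (Φ.coeff m).natAbs ≤ h := by
    intro m
    by_cases hm : m ∈ Φ.support
    · have := Finset.single_le_sum (f := fun m => (Φ.coeff m).natAbs) (fun _ _ => Nat.zero_le _) hm
      omega
    · rw [MvPolynomial.notMem_support_iff.1 hm]
      simp
  have hhH : h + H ≤ 2 * (h * H) := by nlinarith
  obtain ⟨r1, r2⟩ := hres d (by omega) (2 * (h * H))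
  have hfin : {F : MvPolynomial (Fin 2) ℤ | F.totalDegree ≤ d ∧
      ∀ m, |F.coeff m| ≤ ((2 * (h * H) : ℕ) : ℤ)}.Finite := by
    refine Set.finite_of_ncard_ne_zero ?_
    rw [r1]
    positivity
  have hsub : {F | F ∈ Fam Φ d H ∧ ∃ x y : ℤ,
      (((K * H) ^ (10 ^ 11 * 36 ^ d * (d + 1) ^ 13) : ℕ) : ℤ) < max |x| |y| ∧
        eval ![x, y] F = 0} ⊆
      {F : MvPolynomial (Fin 2) ℤ | (F.totalDegree = d ∧
        ∀ m, |F.coeff m| ≤ ((2 * (h * H) : ℕ) : ℤ)) ∧
      Irreducible (MvPolynomial.map (Int.castRingHom ℚ) F) ∧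
      Squarefree (MvPolynomial.map (Int.castRingHom ℚ) (MvPolynomial.homogeneousComponent d F)) ∧
      ∃ x y : ℤ, MvPolynomial.eval ![x, y] F = 0 ∧
        ((d + 1) * ∑ m ∈ F.support, (F.coeff m).natAbs) ^ (10 ^ 11 * 36 ^ d * (d + 1) ^ 13)
          < max x.natAbs y.natAbs} := by
    rintro F ⟨⟨G, hG, rfl⟩, x, y, hxy, h0⟩
    obtain ⟨i1, i2, i3⟩ := hirr d Φ G (by omega) hΦ hG.1
    refine ⟨⟨i1, fun m => ?_⟩, i3, ?_, x, y, h0, ?_⟩
    · rw [MvPolynomial.coeff_add]
      refine (abs_add_le _ _).trans ?_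
      have h1 : |Φ.coeff m| ≤ (h : ℤ) := by
        rw [Int.abs_eq_natAbs]
        exact_mod_cast hb m
      have h2 := hG.2 m
      have h3 : ((h + H : ℕ) : ℤ) ≤ ((2 * (h * H) : ℕ) : ℤ) := by exact_mod_cast hhH
      push_cast at h3 ⊢
      linarith
    · rw [i2]
      exact hΦ.irr.squarefree
    · have hsum : ∑ m ∈ (Φ + G).support, ((Φ + G).coeff m).natAbs ≤ (h + NN d) * H := by
        classical
        have h1 : ∑ m ∈ (Φ + G).support, ((Φ + G).coeff m).natAbs ≤
            ∑ m ∈ Φ.support ∪ G.support, ((Φ.coeff m).natAbs + (G.coeff m).natAbs) := by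
          refine (Finset.sum_le_sum fun m _ => ?_).trans
            (Finset.sum_le_sum_of_subset MvPolynomial.support_add)
          rw [MvPolynomial.coeff_add]
          exact Int.natAbs_add_le _ _
        have h2 : ∑ m ∈ Φ.support ∪ G.support, (Φ.coeff m).natAbs =
            ∑ m ∈ Φ.support, (Φ.coeff m).natAbs := by
          refine (Finset.sum_subset Finset.subset_union_left fun m _ hm => ?_).symm
          rw [MvPolynomial.notMem_support_iff.1 hm]
          rfl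
        have h3 : ∑ m ∈ Φ.support ∪ G.support, (G.coeff m).natAbs =
            ∑ m ∈ G.support, (G.coeff m).natAbs := by
          refine (Finset.sum_subset Finset.subset_union_right fun m _ hm => ?_).symm
          rw [MvPolynomial.notMem_support_iff.1 hm]
          rfl
        have h4 : G.support ⊆ PS (d - 1) := by
          intro m hm
          rw [mem_PS]
          have h5 := MvPolynomial.le_totalDegree hm
          have h6 : (m.sum fun _ e => e) = m.degree := rfl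
          have h7 := hG.1
          omega
        have h5 : ∑ m ∈ G.support, (G.coeff m).natAbs ≤ NN d * H := by
          have h6 : ∀ m ∈ G.support, (G.coeff m).natAbs ≤ H := by
            intro m _
            have := hG.2 m
            rw [Int.abs_eq_natAbs] at this
            exact_mod_cast this
          refine (Finset.sum_le_card_nsmul _ _ _ h6).trans ?_
          rw [smul_eq_mul]
          refine Nat.mul_le_mul_right _ ((Finset.card_le_card h4).trans ?_)
          rw [card_PS, NN]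
          have : d - 1 + 2 = d + 1 := by omega
          rw [this]
        rw [Finset.sum_add_distrib, h2, h3] at h1
        nlinarith
      have h1 : (d + 1) * ∑ m ∈ (Φ + G).support, ((Φ + G).coeff m).natAbs ≤ K * H := by
        calc (d + 1) * ∑ m ∈ (Φ + G).support, ((Φ + G).coeff m).natAbs
            ≤ (d + 1) * ((h + NN d) * H) := Nat.mul_le_mul_left _ hsum
          _ = ((d + 1) * (h + NN d)) * H := by ring
          _ ≤ K * H := Nat.mul_le_mul_right _ hK
      refine (Nat.pow_le_pow_left h1 _).trans_lt ?_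
      rw [Int.abs_eq_natAbs, Int.abs_eq_natAbs, ← Nat.cast_max] at hxy
      exact_mod_cast hxy
  have hfin2 : {F : MvPolynomial (Fin 2) ℤ | (F.totalDegree = d ∧
        ∀ m, |F.coeff m| ≤ ((2 * (h * H) : ℕ) : ℤ)) ∧
      Irreducible (MvPolynomial.map (Int.castRingHom ℚ) F) ∧
      Squarefree (MvPolynomial.map (Int.castRingHom ℚ) (MvPolynomial.homogeneousComponent d F)) ∧
      ∃ x y : ℤ, MvPolynomial.eval ![x, y] F = 0 ∧
        ((d + 1) * ∑ m ∈ F.support, (F.coeff m).natAbs) ^ (10 ^ 11 * 36 ^ d * (d + 1) ^ 13)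
          < max x.natAbs y.natAbs}.Finite :=
    hfin.subset fun F hF => ⟨hF.1.1.le, hF.1.2⟩
  rw [Nat.card_coe_set_eq]
  have hle := (Set.ncard_le_ncard hsub hfin2).trans r2
  have hpow : (2 * (2 * (h * H)) + 1) ^ (4 * d - 2) ≤ (5 * h) ^ (4 * d - 2) * H ^ (4 * d - 2) := by
    rw [← mul_pow]
    refine Nat.pow_le_pow_left ?_ _
    nlinarith
  have hle2 : Set.ncard {F | F ∈ Fam Φ d H ∧ ∃ x y : ℤ,
      (((K * H) ^ (10 ^ 11 * 36 ^ d * (d + 1) ^ 13) : ℕ) : ℤ) < max |x| |y| ∧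
        eval ![x, y] F = 0} ≤
      (10 ^ 9 * 36 ^ d * (d + 1) ^ 8 * (5 * h) ^ (4 * d - 2)) * H ^ (4 * d - 2) := by
    refine hle.trans ?_
    calc 10 ^ 9 * 36 ^ d * (d + 1) ^ 8 * (2 * (2 * (h * H)) + 1) ^ (4 * d - 2)
        ≤ 10 ^ 9 * 36 ^ d * (d + 1) ^ 8 * ((5 * h) ^ (4 * d - 2) * H ^ (4 * d - 2)) :=
          Nat.mul_le_mul_left _ hpow
      _ = _ := by ring
  have hle3 : ((Set.ncard {F | F ∈ Fam Φ d H ∧ ∃ x y : ℤ,
      (((K * H) ^ (10 ^ 11 * 36 ^ d * (d + 1) ^ 13) : ℕ) : ℤ) < max |x| |y| ∧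
        eval ![x, y] F = 0} : ℕ) : ℝ) ≤
      ((10 ^ 9 * 36 ^ d * (d + 1) ^ 8 * (5 * h) ^ (4 * d - 2) : ℕ) : ℝ) *
        (H : ℝ) ^ (4 * d - 2) := by
    exact_mod_cast hle2
  refine hle3.trans (mul_le_mul_of_nonneg_left ?_ (Nat.cast_nonneg _))
  rw [← Real.rpow_natCast]
  refine Real.rpow_le_rpow_of_exponent_le (by exact_mod_cast hH) ?_
  have h1 := nn_le hd
  have h2 : (4 * (d : ℝ)) ≤ NN d := by exact_mod_cast h1
  rw [Nat.cast_sub (by omega)]
  push_cast
  linarith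

end Pool.Agent.Q208.UI
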